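import Pool.Agent.Lib_helper33.ASM.TStmts

/-!
# T4a: fine discretisations have the same matching as the points of the box
-/

set_option autoImplicit false

open scoped BigOperators ENNReal
open MeasureTheory Filter Topology

namespace Pool.Agent.Lib_helper33.ASM

namespace Disc

section transport

variable {ι κ E E' : Type*} [MetricSpace E] [MetricSpace E']

/-- `φ` is a bijection of the occupied sites of `ω` onto the occupied sites of `η` which keeps the
colours and the order of the distances -/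
structure Tr (x : ι → E) (y : κ → E') (ω : Cfg ι) (η : Cfg κ) (φ : ι → κ) (S : Set ι) : Prop where
  inj : Set.InjOn φ S
  sup : ∀ i, ω i ≠ none ↔ i ∈ S
  img : ∀ s, η s ≠ none → ∃ i ∈ S, φ i = s
  val : ∀ i ∈ S, η (φ i) = ω i
  cmp : ∀ i ∈ S, ∀ j ∈ S, ∀ i' ∈ S, ∀ j' ∈ S,
    (dist (x i) (x j) ≤ dist (x i') (x j') ↔
      dist (y (φ i)) (y (φ j)) ≤ dist (y (φ i')) (y (φ j')))

variable {x : ι → E} {y : κ → E'} {ω : Cfg ι} {η : Cfg κ} {φ : ι → κ} {S : Set ι}

lemma Tr.ok (h : Tr x y ω η φ S) {i j : ι} (hi : i ∈ S) (hj : j ∈ S) :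
    Ok η (φ i) (φ j) ↔ Ok ω i j := by
  unfold Ok
  rw [h.val i hi, h.val j hj]
  have : φ i ≠ φ j ↔ i ≠ j := by
    constructor
    · rintro h1 rfl
      exact h1 rfl
    · intro h1 h2
      exact h1 (h.inj hi hj h2)
  rw [this]

lemma Tr.push (h : Tr x y ω η φ S) {M : ι → ι → Prop} (hM : IsKer x ω M) :
    IsKer y η (fun s s' => ∃ i j, φ i = s ∧ φ j = s' ∧ M i j) := by
  have hS : ∀ i j, M i j → i ∈ S ∧ j ∈ S := fun i j hij =>
    ⟨(h.sup i).1 (hM.ok hij).2.1, (h.sup j).1 (hM.ok hij).2.2.1⟩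
  intro s s'
  constructor
  · rintro ⟨i, j, rfl, rfl, hij⟩
    obtain ⟨hi, hj⟩ := hS i j hij
    have hk := (hM i j).1 hij
    refine ⟨(h.ok hi hj).2 hk.1, fun k => ⟨?_, ?_⟩⟩
    · rintro ⟨i2, k2, h1, rfl, h3⟩
      obtain ⟨hi2, hk2⟩ := hS i2 k2 h3
      obtain rfl := h.inj hi2 hi h1
      exact (h.cmp _ hi _ hj _ hi _ hk2).1 ((hk.2 k2).1 h3)
    · rintro ⟨j2, k2, h1, rfl, h3⟩
      obtain ⟨hj2, hk2⟩ := hS j2 k2 h3
      obtain rfl := h.inj hj2 hj h1
      exact (h.cmp _ hi _ hj _ hj _ hk2).1 ((hk.2 k2).2 h3)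
  · rintro ⟨hok, hk⟩
    obtain ⟨i, hi, rfl⟩ := h.img s hok.2.1
    obtain ⟨j, hj, rfl⟩ := h.img s' hok.2.2.1
    refine ⟨i, j, rfl, rfl, (hM i j).2 ⟨(h.ok hi hj).1 hok, fun k => ⟨fun h3 => ?_, fun h3 => ?_⟩⟩⟩
    · exact (h.cmp _ hi _ hj _ hi _ (hS _ _ h3).2).2 ((hk (φ k)).1 ⟨i, k, rfl, rfl, h3⟩)
    · exact (h.cmp _ hi _ hj _ hj _ (hS _ _ h3).2).2 ((hk (φ k)).2 ⟨j, k, rfl, rfl, h3⟩)

lemma Tr.pull (h : Tr x y ω η φ S) {M : κ → κ → Prop} (hM : IsKer y η M) :
    IsKer x ω (fun i j => i ∈ S ∧ j ∈ S ∧ M (φ i) (φ j)) := by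
  intro i j
  constructor
  · rintro ⟨hi, hj, hij⟩
    have hk := (hM _ _).1 hij
    refine ⟨(h.ok hi hj).1 hk.1, fun k => ⟨?_, ?_⟩⟩
    · rintro ⟨_, hk2, h3⟩
      exact (h.cmp _ hi _ hj _ hi _ hk2).2 ((hk.2 _).1 h3)
    · rintro ⟨_, hk2, h3⟩
      exact (h.cmp _ hi _ hj _ hj _ hk2).2 ((hk.2 _).2 h3)
  · rintro ⟨hok, hk⟩
    have hi : i ∈ S := (h.sup i).1 hok.2.1
    have hj : j ∈ S := (h.sup j).1 hok.2.2.1
    refine ⟨hi, hj, (hM _ _).2 ⟨(h.ok hi hj).2 hok, fun k => ⟨fun h3 => ?_, fun h3 => ?_⟩⟩⟩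
    · obtain ⟨k2, hk2, rfl⟩ := h.img k (hM.ok h3).2.2.1
      exact (h.cmp _ hi _ hj _ hi _ hk2).1 ((hk k2).1 ⟨hi, hk2, h3⟩)
    · obtain ⟨k2, hk2, rfl⟩ := h.img k (hM.ok h3).2.2.1
      exact (h.cmp _ hi _ hj _ hj _ hk2).1 ((hk k2).2 ⟨hj, hk2, h3⟩)

lemma Tr.mt_iff [Finite κ] (h : Tr x y ω η φ S) (i j : ι) :
    mt x ω i j ↔ i ∈ S ∧ j ∈ S ∧ mt y η (φ i) (φ j) := by
  constructor
  · rintro ⟨M, hM, hij⟩
    refine ⟨(h.sup i).1 (hM.ok hij).2.1, (h.sup j).1 (hM.ok hij).2.2.1, ?_⟩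
    have h1 := h.push hM
    have h2 := IsKer.unique (mt_isKer y η) h1
    rw [← h2]
    exact ⟨i, j, rfl, rfl, hij⟩
  · intro hij
    exact ⟨_, h.pull (mt_isKer y η), hij⟩

/-- the same for the comparison with the time `t` -/
lemma Tr.un_iff [Finite κ] (h : Tr x y ω η φ S) {t : ℝ}
    (ht : ∀ i ∈ S, ∀ j ∈ S, i ≠ j → (dist (x i) (x j) < t ↔ dist (y (φ i)) (y (φ j)) < t))
    {i : ι} (hi : i ∈ S) : Un y η t (φ i) ↔ Un x ω t i := by
  unfold Un
  rw [h.val i hi]
  have : Bf y η t (φ i) ↔ Bf x ω t i := by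
    constructor
    · rintro ⟨k, hk, hd⟩
      obtain ⟨j, hj, rfl⟩ := h.img k (mt_ok hk).2.2.1
      have hne : i ≠ j := by
        rintro rfl
        exact (mt_ok hk).1 rfl
      exact ⟨j, (h.mt_iff i j).2 ⟨hi, hj, hk⟩, (ht i hi j hj hne).2 hd⟩
    · rintro ⟨j, hj, hd⟩
      obtain ⟨_, hj', hm⟩ := (h.mt_iff i j).1 hj
      have hne : i ≠ j := by
        rintro rfl
        exact (mt_ok hm).1 rfl
      exact ⟨φ j, hm, (ht i hi j hj' hne).1 hd⟩
  rw [this]

end transport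

section cells

variable {d : ℕ}

lemma mem_cell {n k : ℕ} {s : Fin d → Fin (2 * n * k)} {y : Sp d} :
    y ∈ cell n k s ↔ ∀ i, ⌊(k : ℝ) * y i⌋ = (s i : ℤ) - n * k := Iff.rfl

lemma mem_box {n : ℕ} {y : Sp d} : y ∈ box n ↔ ∀ i, -(n : ℝ) ≤ y i ∧ y i < n := Iff.rfl

lemma exists_cell {n k : ℕ} (hk : 0 < k) {y : Sp d} (hy : y ∈ box n) :
    ∃ s : Fin d → Fin (2 * n * k), y ∈ cell n k s := by
  have hk' : (0 : ℝ) < k := by exact_mod_cast hk
  have h1 : ∀ i, 0 ≤ ⌊(k : ℝ) * y i⌋ + n * k := by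
    intro i
    have h2 : (-(n * k : ℤ) : ℤ) ≤ ⌊(k : ℝ) * y i⌋ := by
      rw [Int.le_floor]
      push_cast
      nlinarith [(hy i).1]
    linarith
  have h3 : ∀ i, ⌊(k : ℝ) * y i⌋ + n * k < 2 * n * k := by
    intro i
    have h2 : ⌊(k : ℝ) * y i⌋ < (n * k : ℤ) := by
      rw [Int.floor_lt]
      push_cast
      nlinarith [(hy i).2]
    linarith
  refine ⟨fun i => ⟨(⌊(k : ℝ) * y i⌋ + n * k).toNat, ?_⟩, fun i => ?_⟩
  · have := h3 i
    have h4 := h1 i
    zify
    rw [Int.toNat_of_nonneg h4]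
    exact this
  · have h4 := h1 i
    simp only
    rw [Int.toNat_of_nonneg h4]
    ring

lemma cell_unique {n k : ℕ} {s s' : Fin d → Fin (2 * n * k)} {y : Sp d} (h : y ∈ cell n k s)
    (h' : y ∈ cell n k s') : s = s' := by
  funext i
  have h1 := h i
  have h2 := h' i
  rw [h1] at h2
  apply Fin.ext
  have : ((s i : ℕ) : ℤ) = ((s' i : ℕ) : ℤ) := by linarith
  exact_mod_cast this

lemma cell_sub_box {n k : ℕ} (hk : 0 < k) {s : Fin d → Fin (2 * n * k)} {y : Sp d}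
    (h : y ∈ cell n k s) : y ∈ box n := by
  have hk' : (0 : ℝ) < k := by exact_mod_cast hk
  intro i
  have h1 := h i
  have h2 : (⌊(k : ℝ) * y i⌋ : ℝ) ≤ k * y i := Int.floor_le _
  have h3 : (k : ℝ) * y i < ⌊(k : ℝ) * y i⌋ + 1 := Int.lt_floor_add_one _
  rw [h1] at h2 h3
  push_cast at h2 h3
  have h4 : (0 : ℝ) ≤ ((s i : ℕ) : ℝ) := Nat.cast_nonneg _
  have h5 : (((s i : ℕ) : ℝ)) + 1 ≤ 2 * n * k := by
    exact_mod_cast (s i).2
  constructor
  · have : (k : ℝ) * (-(n : ℝ)) ≤ k * y i := by nlinarith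
    exact le_of_mul_le_mul_left this hk'
  · have : (k : ℝ) * y i < k * n := by nlinarith
    exact lt_of_mul_lt_mul_left this hk'.le

lemma cell_cb {n k : ℕ} (hk : 0 < k) {s : Fin d → Fin (2 * n * k)} {y y' : Sp d}
    (h : y ∈ cell n k s) (h' : y' ∈ cell n k s) : cb y = cb y' := by
  have hk' : (0 : ℝ) < k := by exact_mod_cast hk
  have key : ∀ z : Sp d, z ∈ cell n k s → ∀ i, ⌊z i⌋ = ((s i : ℤ) - n * k) / (k : ℤ) := by
    intro z hz i
    have h1 := hz i
    rw [← h1]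
    have h2 : z i = ((k : ℝ) * z i) / (k : ℕ) := by field_simp
    conv_lhs => rw [h2]
    exact Int.floor_div_natCast _ _
  funext i
  change ⌊y i⌋ = ⌊y' i⌋
  rw [key y h i, key y' h' i]

lemma cell_dist {n k : ℕ} (hk : 0 < k) {s : Fin d → Fin (2 * n * k)} {y y' : Sp d}
    (h : y ∈ cell n k s) (h' : y' ∈ cell n k s) : dist y y' ≤ Real.sqrt d / k := by
  have hk' : (0 : ℝ) < k := by exact_mod_cast hk
  rw [EuclideanSpace.dist_eq]
  have h1 : ∀ i, dist (y i) (y' i) ^ 2 ≤ (1 / (k : ℝ)) ^ 2 := by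
    intro i
    have h2 : (⌊(k : ℝ) * y i⌋ : ℝ) ≤ k * y i := Int.floor_le _
    have h3 : (k : ℝ) * y i < ⌊(k : ℝ) * y i⌋ + 1 := Int.lt_floor_add_one _
    have h4 : (⌊(k : ℝ) * y' i⌋ : ℝ) ≤ k * y' i := Int.floor_le _
    have h5 : (k : ℝ) * y' i < ⌊(k : ℝ) * y' i⌋ + 1 := Int.lt_floor_add_one _
    rw [h i] at h2 h3
    rw [h' i] at h4 h5
    have h6 : |y i - y' i| ≤ 1 / k := by
      rw [abs_le]
      constructor
      · rw [neg_le_iff_add_nonneg, ← sub_nonneg]
        have h7 : 0 ≤ ((y i - y' i) * k + 1) / k := div_nonneg (by linarith) hk'.le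
        have h8 : ((y i - y' i) * k + 1) / k = y i - y' i + 1 / k := by field_simp
        linarith
      · rw [le_div_iff₀ hk']
        linarith
    rw [Real.dist_eq]
    exact pow_le_pow_left₀ (abs_nonneg _) h6 2
  calc Real.sqrt (∑ i, dist (y i) (y' i) ^ 2) ≤ Real.sqrt (∑ _i : Fin d, (1 / (k : ℝ)) ^ 2) :=
        Real.sqrt_le_sqrt (Finset.sum_le_sum fun i _ => h1 i)
    _ = Real.sqrt d / k := by
        rw [Finset.sum_const, Finset.card_univ, Fintype.card_fin, nsmul_eq_mul,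
          Real.sqrt_mul (Nat.cast_nonneg _), Real.sqrt_sq (by positivity)]
        ring

lemma box_norm {n : ℕ} {y : Sp d} (h : y ∈ box n) : ‖y‖ ≤ Real.sqrt d * n := by
  rw [EuclideanSpace.norm_eq]
  have h1 : ∀ i, ‖y i‖ ^ 2 ≤ (n : ℝ) ^ 2 := by
    intro i
    rw [Real.norm_eq_abs]
    exact pow_le_pow_left₀ (abs_nonneg _) (abs_le.2 ⟨(h i).1, (h i).2.le⟩) 2
  calc Real.sqrt (∑ i, ‖y i‖ ^ 2) ≤ Real.sqrt (∑ _i : Fin d, (n : ℝ) ^ 2) :=
        Real.sqrt_le_sqrt (Finset.sum_le_sum fun i _ => h1 i)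
    _ = Real.sqrt d * n := by
        rw [Finset.sum_const, Finset.card_univ, Fintype.card_fin, nsmul_eq_mul,
          Real.sqrt_mul (Nat.cast_nonneg _), Real.sqrt_sq (by positivity)]

lemma cb_shift (y : Sp d) (v : Fin d → ℤ) : cb y = v + cb (y - iv v) := by
  funext i
  change ⌊y i⌋ = v i + ⌊(y - iv v) i⌋
  have : (y - iv v) i = y i - (v i : ℝ) := rfl
  rw [this, Int.floor_sub_intCast]
  ring

end cells

section main

variable {d : ℕ}

lemma nice_inj {x : ℕ → Sp d} (hx : Nice x) : Function.Injective x := by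
  intro i j hij
  by_contra hne
  have := hx.not_nat i j hne 0
  rw [hij] at this
  simp at this

lemma box_finite {x : ℕ → Sp d} (hx : Nice x) (v : Fin d → ℤ) (n : ℕ) :
    {i | x i - iv v ∈ box n}.Finite := by
  refine (hx.lf (Real.sqrt d * n + ‖(iv v : Sp d)‖)).subset ?_
  intro i hi
  have h1 := box_norm hi
  have h2 : ‖x i‖ ≤ ‖x i - iv v‖ + ‖(iv v : Sp d)‖ := by
    have := norm_add_le (x i - iv v) (iv v)
    simpa using this
  exact h2.trans (by gcongr)

/-- `x i` and `x j` have separated distances, up to the error `ε` -/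
def Sep (x : ℕ → Sp d) (S : Set ℕ) (T : ℕ) (ε : ℝ) : Prop :=
  (∀ i ∈ S, ∀ j ∈ S, ∀ i' ∈ S, ∀ j' ∈ S, dist (x i) (x j) ≠ dist (x i') (x j') →
    ε < |dist (x i) (x j) - dist (x i') (x j')|) ∧
  (∀ i ∈ S, ∀ j ∈ S, ∀ t ∈ Finset.range (T + 1), dist (x i) (x j) ≠ (t : ℝ) →
    ε < |dist (x i) (x j) - t|)

lemma sep_eventually {x : ℕ → Sp d} {S : Set ℕ} (hS : S.Finite) (T : ℕ) (C : ℝ) :
    ∀ᶠ k : ℕ in atTop, Sep x S T (C / k) := by
  have h0 : Tendsto (fun k : ℕ => C / (k : ℝ)) atTop (𝓝 0) :=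
    tendsto_const_div_atTop_nhds_zero_nat C
  have h1 : ∀ a b : ℝ, ∀ᶠ k : ℕ in atTop, a ≠ b → C / (k : ℝ) < |a - b| := by
    intro a b
    by_cases hab : a = b
    · exact Eventually.of_forall fun k h => absurd hab h
    · have : 0 < |a - b| := abs_pos.2 (sub_ne_zero.2 hab)
      exact (h0.eventually (gt_mem_nhds this)).mono fun k hk _ => hk
  refine Eventually.and ?_ ?_
  · rw [eventually_all_finite hS]
    intro i _
    rw [eventually_all_finite hS]
    intro j _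
    rw [eventually_all_finite hS]
    intro i' _
    rw [eventually_all_finite hS]
    intro j' _
    exact h1 _ _
  · rw [eventually_all_finite hS]
    intro i _
    rw [eventually_all_finite hS]
    intro j _
    rw [eventually_all_finset]
    intro t _
    exact h1 _ _

section trans

variable {x : ℕ → Sp d} {c : ℕ → Bool} {v : Fin d → ℤ} {n k : ℕ}
  {y : (Fin d → Fin (2 * n * k)) → Sp d} {φ : ℕ → (Fin d → Fin (2 * n * k))} {T : ℕ}

lemma dist_close (hk : 0 < k) (hy : ∀ s, y s ∈ cell n k s)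
    (hφ : ∀ i ∈ {i | x i - iv v ∈ box n}, x i - iv v ∈ cell n k (φ i)) {i j : ℕ}
    (hi : i ∈ {i | x i - iv v ∈ box n}) (hj : j ∈ {i | x i - iv v ∈ box n}) :
    |dist (x i) (x j) - dist (y (φ i)) (y (φ j))| ≤ 2 * (Real.sqrt d / k) := by
  have h1 := cell_dist hk (hφ i hi) (hy (φ i))
  have h2 := cell_dist hk (hφ j hj) (hy (φ j))
  have h3 := dist_dist_dist_le (x i - iv v) (x j - iv v) (y (φ i)) (y (φ j))
  rw [dist_sub_right, Real.dist_eq] at h3
  linarith

lemma trans_main (hx : Nice x) (hk : 0 < k) (hy : ∀ s, y s ∈ cell n k s)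
    (hsep : Sep x {i | x i - iv v ∈ box n} T (4 * Real.sqrt d / k))
    (hφ : ∀ i ∈ {i | x i - iv v ∈ box n}, x i - iv v ∈ cell n k (φ i)) :
    Tr x y (bcf x c v n) (dcf x c v n k) φ {i | x i - iv v ∈ box n} := by
  have he : (0 : ℝ) ≤ Real.sqrt d / k := by positivity
  have he4 : 4 * Real.sqrt d / k = 4 * (Real.sqrt d / k) := by ring
  rw [he4] at hsep
  have hinj : Set.InjOn φ {i | x i - iv v ∈ box n} := by
    intro i hi j hj hij
    by_contra hne
    have h1 := dist_close hk hy hφ hi hj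
    rw [hij, dist_self, sub_zero, abs_of_nonneg dist_nonneg] at h1
    have h2 := hsep.2 i hi j hj 0 (by simp) (hx.not_nat i j hne 0)
    simp only [Nat.cast_zero, sub_zero, abs_of_nonneg (dist_nonneg (x := x i) (y := x j))] at h2
    linarith
  have huniq : ∀ i ∈ {i | x i - iv v ∈ box n}, ∀ j, x j - iv v ∈ cell n k (φ i) → j = i := by
    intro i hi j hj
    have hjS : j ∈ {i | x i - iv v ∈ box n} := cell_sub_box hk hj
    exact hinj hjS hi (cell_unique (hφ j hjS) hj)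
  refine ⟨hinj, ?_, ?_, ?_, ?_⟩
  · intro i
    unfold bcf er full
    by_cases hi : x i - iv v ∈ box n <;> simp [hi]
  · intro s hs
    unfold dcf st at hs
    split_ifs at hs with h
    · have h1 := h.choose_spec.1
      have hS : h.choose ∈ {i | x i - iv v ∈ box n} := cell_sub_box hk h1
      exact ⟨h.choose, hS, cell_unique (hφ _ hS) h1⟩
    · exact absurd rfl hs
  · intro i hi
    have h1 : ∃! j, x j ∈ {y | y - iv v ∈ cell n k (φ i)} := ⟨i, hφ i hi, fun j hj => huniq i hi j hj⟩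
    unfold dcf st
    rw [dif_pos h1, huniq i hi _ h1.choose_spec.1]
    unfold bcf er full
    have hi' : x i - iv v ∈ box n := hi
    simp [hi']
  · intro i hi j hj i' hi' j' hj'
    by_cases heq : dist (x i) (x j) = dist (x i') (x j')
    · by_cases hij : i = j
      · subst hij
        rw [dist_self] at heq
        have h2 : i' = j' := nice_inj hx (dist_eq_zero.1 heq.symm)
        subst h2
        simp
      · have hij' : i' ≠ j' := by
          rintro rfl
          rw [dist_self] at heq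
          exact hij (nice_inj hx (dist_eq_zero.1 heq))
        rcases hx.gen i j i' j' hij hij' heq with h3 | h3
        · obtain ⟨rfl, rfl⟩ := h3
          simp
        · obtain ⟨rfl, rfl⟩ := h3
          rw [dist_comm (x j) (x i), dist_comm (y (φ j)) (y (φ i))]
          simp
    · have h1 := hsep.1 i hi j hj i' hi' j' hj' heq
      have h2 := abs_le.1 (dist_close hk hy hφ hi hj)
      have h3 := abs_le.1 (dist_close hk hy hφ hi' hj')
      constructor
      · intro h4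
        have h5 := abs_of_nonpos (sub_nonpos.2 h4)
        rw [h5] at h1
        linarith [h2.1, h2.2, h3.1, h3.2]
      · intro h4
        by_contra h6
        push Not at h6
        have h5 := abs_of_pos (sub_pos.2 h6)
        rw [h5] at h1
        linarith [h2.1, h2.2, h3.1, h3.2]

lemma time_main (hx : Nice x) (hk : 0 < k) (hy : ∀ s, y s ∈ cell n k s)
    (hsep : Sep x {i | x i - iv v ∈ box n} T (4 * Real.sqrt d / k))
    (hφ : ∀ i ∈ {i | x i - iv v ∈ box n}, x i - iv v ∈ cell n k (φ i)) {t : ℕ} (ht : t ≤ T) :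
    ∀ i ∈ {i | x i - iv v ∈ box n}, ∀ j ∈ {i | x i - iv v ∈ box n}, i ≠ j →
      (dist (x i) (x j) < (t : ℝ) ↔ dist (y (φ i)) (y (φ j)) < (t : ℝ)) := by
  have he : (0 : ℝ) ≤ Real.sqrt d / k := by positivity
  have he4 : 4 * Real.sqrt d / k = 4 * (Real.sqrt d / k) := by ring
  rw [he4] at hsep
  intro i hi j hj hne
  have h1 := hsep.2 i hi j hj t (by simp; omega) (hx.not_nat i j hne t)
  have h2 := abs_le.1 (dist_close hk hy hφ hi hj)
  constructor
  · intro h4
    have h5 := abs_of_neg (sub_neg.2 h4)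
    rw [h5] at h1
    linarith [h2.1, h2.2]
  · intro h4
    by_contra h6
    push Not at h6
    have h5 := abs_of_nonneg (sub_nonneg.2 h6)
    rw [h5] at h1
    linarith [h2.1, h2.2]

end trans

end main

end Disc

open Disc in
theorem stmtT4a : StmtT4a := by
  intro d x c hd hx v n hn T
  have h1 := sep_eventually (x := x) (box_finite hx v n) T (4 * Real.sqrt d)
  obtain ⟨K, hK⟩ := eventually_atTop.1 (h1.and (eventually_gt_atTop 0))
  refine ⟨K + 1, by omega, fun k hkK y hgen hy => ?_⟩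
  obtain ⟨hsep, hk⟩ := hK k (by omega)
  haveI : Nonempty (Fin (2 * n * k)) := ⟨⟨0, by positivity⟩⟩
  set φ : ℕ → (Fin d → Fin (2 * n * k)) :=
    fun i => Classical.epsilon (fun s => x i - iv v ∈ cell n k s) with hφdef
  have hφ : ∀ i ∈ {i | x i - iv v ∈ box n}, x i - iv v ∈ cell n k (φ i) := by
    intro i hi
    exact Classical.epsilon_spec (exists_cell hk hi)
  have htr := trans_main (c := c) hx hk hy hsep hφ
  have hcb : ∀ i ∈ {i | x i - iv v ∈ box n}, ∀ j : Fin d → ℤ,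
      (cb (y (φ i)) = j ↔ cb (x i) = v + j) := by
    intro i hi j
    rw [cb_shift (x i) v, cell_cb hk (hφ i hi) (hy (φ i))]
    exact ⟨fun h => by rw [h], fun h => add_left_cancel h⟩
  constructor
  · intro b j t ht hj
    unfold uc
    have htime := time_main hx hk hy hsep hφ ht
    have hset : {s | cb (y s) = j ∧ dcf x c v n k s = some b ∧ Un y (dcf x c v n k) t s} =
        φ '' {i | cb (x i) = v + j ∧ bcf x c v n i = some b ∧ Un x (bcf x c v n) t i} := by
      ext s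
      constructor
      · rintro ⟨h2, h3, h4⟩
        obtain ⟨i, hi, rfl⟩ := htr.img s (by rw [h3]; simp)
        refine ⟨i, ⟨(hcb i hi j).1 h2, ?_, (htr.un_iff htime hi).1 h4⟩, rfl⟩
        rw [← htr.val i hi, h3]
      · rintro ⟨i, ⟨h2, h3, h4⟩, rfl⟩
        have hi : i ∈ {i | x i - iv v ∈ box n} := (htr.sup i).1 h4.1
        refine ⟨(hcb i hi j).2 h2, ?_, (htr.un_iff htime hi).2 h4⟩
        rw [htr.val i hi, h3]
    rw [hset, Set.ncard_image_of_injOn]
    exact htr.inj.mono fun i hi => (htr.sup i).1 hi.2.2.1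
  · intro b b' j j' t ht hj hj'
    unfold pc
    have htime := time_main hx hk hy hsep hφ ht
    have hset : {e : (Fin d → Fin (2 * n * k)) × (Fin d → Fin (2 * n * k)) |
        cb (y e.1) = j ∧ cb (y e.2) = j' ∧ dcf x c v n k e.1 = some b ∧
          dcf x c v n k e.2 = some b' ∧ mt y (dcf x c v n k) e.1 e.2 ∧
          dist (y e.1) (y e.2) < t} =
        (Prod.map φ φ) '' {e : ℕ × ℕ | cb (x e.1) = v + j ∧ cb (x e.2) = v + j' ∧
          bcf x c v n e.1 = some b ∧ bcf x c v n e.2 = some b' ∧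
          mt x (bcf x c v n) e.1 e.2 ∧ dist (x e.1) (x e.2) < t} := by
      ext ⟨s, s'⟩
      constructor
      · rintro ⟨h2, h2', h3, h3', h4, h5⟩
        obtain ⟨i, hi, rfl⟩ := htr.img s (by simp only at h3; rw [h3]; simp)
        obtain ⟨i', hi', rfl⟩ := htr.img s' (by simp only at h3'; rw [h3']; simp)
        have hne : i ≠ i' := by
          rintro rfl
          exact (mt_ok h4).1 rfl
        refine ⟨(i, i'), ⟨(hcb i hi j).1 h2, (hcb i' hi' j').1 h2', ?_, ?_,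
          (htr.mt_iff i i').2 ⟨hi, hi', h4⟩, (htime i hi i' hi' hne).2 h5⟩, rfl⟩
        · simp only
          rw [← htr.val i hi]
          exact h3
        · simp only
          rw [← htr.val i' hi']
          exact h3'
      · rintro ⟨⟨i, i'⟩, ⟨h2, h2', h3, h3', h4, h5⟩, he⟩
        simp only [Prod.map_apply, Prod.mk.injEq] at he
        obtain ⟨rfl, rfl⟩ := he
        obtain ⟨hi, hi', h6⟩ := (htr.mt_iff i i').1 h4
        have hne : i ≠ i' := by
          rintro rfl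
          exact (mt_ok h6).1 rfl
        refine ⟨(hcb i hi j).2 h2, (hcb i' hi' j').2 h2', ?_, ?_, h6,
          (htime i hi i' hi' hne).1 h5⟩
        · simp only
          rw [htr.val i hi]
          exact h3
        · simp only
          rw [htr.val i' hi']
          exact h3'
    rw [hset, Set.ncard_image_of_injOn]
    rintro ⟨i, i'⟩ hi ⟨l, l'⟩ hl he
    simp only [Prod.map_apply, Prod.mk.injEq] at he
    have hi1 := (htr.mt_iff i i').1 hi.2.2.2.2.1
    have hl1 := (htr.mt_iff l l').1 hl.2.2.2.2.1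
    rw [htr.inj hi1.1 hl1.1 he.1, htr.inj hi1.2.1 hl1.2.1 he.2]


end Pool.Agent.Lib_helper33.ASM
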